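import Mathlib

/-!
# Oriented extensions realizing a sub-modular-cut: a counterexample

Oriented matroids on a finite ground set are defined by the signed circuit axioms; the underlying
matroid is a Mathlib `Matroid`.  `O` is the alternating oriented matroid of rank `5` on `8`
elements `0 < 1 < ... < 7`, the extension `O ∪ p` puts `p` in general position on the line
spanned by `0` and `1` (so `O ∪ p` has no loops and no parallel elements), it corresponds to the
modular cut of all flats containing `{0, 1}`.  The subset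
`{E, {0,1,2,4}, {0,1,3,5}, {0,1,6,7}}` is a modular cut, but no oriented single-element extension
of `O` corresponds to it.
-/

namespace Pool.Agent.Results.MP_6e3918_co.SubModularCut

open Set

/-- An oriented matroid with (finite) ground set the whole type `α`, given by its signed circuits;
a signed subset of `α` is a function `α → SignType`, with support `{e | X e ≠ 0}`. -/
structure OrientedMatroid (α : Type) [Finite α] where
  /-- the signed circuits -/
  circuits : Set (α → SignType)
  zero_notMem : (0 : α → SignType) ∉ circuits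
  neg_mem : ∀ X ∈ circuits, -X ∈ circuits
  eq_or_eq_neg : ∀ X ∈ circuits, ∀ Y ∈ circuits, (∀ e, X e ≠ 0 → Y e ≠ 0) → X = Y ∨ X = -Y
  elimination : ∀ X ∈ circuits, ∀ Y ∈ circuits, X ≠ -Y → ∀ e, X e = 1 → Y e = -1 →
    ∃ Z ∈ circuits, Z e = 0 ∧ ∀ f,
      (Z f = 1 → X f = 1 ∨ Y f = 1) ∧ (Z f = -1 → X f = -1 ∨ Y f = -1)

/-- The support of a signed set. -/
def supp {α : Type} (X : α → SignType) : Set α := {e | X e ≠ 0}

namespace OrientedMatroid

variable {α : Type} [Finite α]

/-- Independence in the underlying matroid: no support of a signed circuit is contained in `I`. -/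
def Indep (O : OrientedMatroid α) (I : Set α) : Prop := ∀ X ∈ O.circuits, ¬ supp X ⊆ I

/-- Unsigned circuit elimination. -/
theorem unsigned_elim (O : OrientedMatroid α) {X Y : α → SignType} (hX : X ∈ O.circuits)
    (hY : Y ∈ O.circuits) (hne : supp X ≠ supp Y) {e : α} (heX : e ∈ supp X) (heY : e ∈ supp Y) :
    ∃ Z ∈ O.circuits, supp Z ⊆ (supp X ∪ supp Y) \ {e} := by
  -- normalise signs
  have key : ∀ X' ∈ O.circuits, ∀ Y' ∈ O.circuits, supp X' = supp X → supp Y' = supp Y →
      X' e = 1 → Y' e = -1 → ∃ Z ∈ O.circuits, supp Z ⊆ (supp X ∪ supp Y) \ {e} := by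
    intro X' hX' Y' hY' hsX hsY h1 h2
    have hne' : X' ≠ -Y' := by
      intro h
      apply hne
      rw [← hsX, ← hsY, h]
      ext f
      simp [supp]
    obtain ⟨Z, hZ, hZe, hZf⟩ := O.elimination X' hX' Y' hY' hne' e h1 h2
    refine ⟨Z, hZ, ?_⟩
    intro f hf
    refine ⟨?_, ?_⟩
    · have hf' : Z f ≠ 0 := hf
      rw [← hsX, ← hsY]
      rcases h : Z f with _ | _ | _
      · exact absurd h hf'
      · rcases (hZf f).2 h with h' | h'
        · left; show X' f ≠ 0; rw [h']; decide
        · right; show Y' f ≠ 0; rw [h']; decide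
      · rcases (hZf f).1 h with h' | h'
        · left; show X' f ≠ 0; rw [h']; decide
        · right; show Y' f ≠ 0; rw [h']; decide
    · rintro rfl
      exact hf hZe
  have hXn := O.neg_mem X hX
  have hYn := O.neg_mem Y hY
  have sX : supp (-X) = supp X := by ext f; simp [supp]
  have sY : supp (-Y) = supp Y := by ext f; simp [supp]
  have heX' : X e ≠ 0 := heX
  have heY' : Y e ≠ 0 := heY
  rcases hx : X e with _ | _ | _
  · exact absurd hx heX'
  · rcases hy : Y e with _ | _ | _
    · exact absurd hy heY'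
    · exact key (-X) hXn Y hY sX rfl (by simp [hx]) hy
    · exact key (-X) hXn (-Y) hYn sX sY (by simp [hx]) (by simp [hy])
  · rcases hy : Y e with _ | _ | _
    · exact absurd hy heY'
    · exact key X hX Y hY rfl rfl hx hy
    · exact key X hX (-Y) hYn rfl sY hx (by simp [hy])

theorem indep_aug (O : OrientedMatroid α) {I J : Set α} (hI : O.Indep I) (hJ : O.Indep J)
    (hlt : I.ncard < J.ncard) : ∃ e ∈ J, e ∉ I ∧ O.Indep (insert e I) := by
  classical
  by_contra hcon
  push Not at hcon
  -- choose K
  have hex : ∃ n, ∃ K : Set α, K ⊆ I ∪ J ∧ O.Indep K ∧ I.ncard < K.ncard ∧ (I \ K).ncard = n :=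
    ⟨_, J, subset_union_right, hJ, hlt, rfl⟩
  obtain ⟨K, hKs, hK, hKc, hKn⟩ := Nat.find_spec hex
  have hmin : ∀ K' : Set α, K' ⊆ I ∪ J → O.Indep K' → I.ncard < K'.ncard →
      (I \ K).ncard ≤ (I \ K').ncard := by
    intro K' h1 h2 h3
    rw [hKn]
    exact Nat.find_min' hex ⟨K', h1, h2, h3, rfl⟩
  -- I ⊄ K
  have hIK : (I \ K).Nonempty := by
    by_contra hemp
    rw [not_nonempty_iff_eq_empty, sdiff_eq_empty] at hemp
    have hne : ∃ f ∈ K, f ∉ I := by
      by_contra h
      push Not at h
      have : K ⊆ I := h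
      have := ncard_le_ncard this (toFinite _)
      omega
    obtain ⟨f, hfK, hfI⟩ := hne
    have hfJ : f ∈ J := by
      rcases hKs hfK with h | h
      · exact absurd h hfI
      · exact h
    apply hcon f hfJ hfI
    intro X hX hs
    apply hK X hX
    exact hs.trans (insert_subset hfK hemp)
  obtain ⟨x, hxI, hxK⟩ := hIK
  -- for y ∈ K \ I
  have hstep : ∀ y ∈ K, y ∉ I → ∃ X ∈ O.circuits, supp X ⊆ insert x (K \ {y}) ∧ x ∈ supp X := by
    intro y hy hyI
    by_contra hno
    push Not at hno
    have hT : O.Indep (insert x (K \ {y})) := by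
      intro X hX hs
      have hx' := hno X hX hs
      apply hK X hX
      intro f hf
      rcases hs hf with h | h
      · subst h; exact absurd hf hx'
      · exact h.1
    have hc : (insert x (K \ {y})).ncard = K.ncard := by
      have h1 : x ∉ K \ {y} := fun h => hxK h.1
      rw [ncard_insert_of_notMem h1 (toFinite _)]
      have := ncard_sdiff_singleton_of_mem hy
      have hpos : 0 < K.ncard := (ncard_pos (toFinite _)).2 ⟨y, hy⟩
      omega
    have h3 := hmin (insert x (K \ {y})) (by
      intro f hf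
      rcases hf with h | h
      · subst h; exact Or.inl hxI
      · exact hKs h.1) hT (by omega)
    have hsub : I \ insert x (K \ {y}) ⊂ I \ K := by
      refine ⟨?_, ?_⟩
      · intro f hf
        refine ⟨hf.1, fun hfK => hf.2 (Or.inr ⟨hfK, ?_⟩)⟩
        rintro rfl
        exact hyI hf.1
      · intro h
        have := h ⟨hxI, hxK⟩
        exact this.2 (Or.inl rfl)
    have := ncard_lt_ncard hsub (toFinite _)
    omega
  have hne : ∃ y ∈ K, y ∉ I := by
    by_contra h
    push Not at h
    have : K ⊆ I := h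
    have := ncard_le_ncard this (toFinite _)
    omega
  obtain ⟨y, hyK, hyI⟩ := hne
  obtain ⟨X, hX, hXs, hxX⟩ := hstep y hyK hyI
  -- X meets K \ I
  have hf : ∃ f ∈ supp X, f ∈ K ∧ f ∉ I := by
    by_contra h
    push Not at h
    apply hI X hX
    intro f hf
    rcases hXs hf with h' | h'
    · subst h'; exact hxI
    · exact h f hf h'.1
  obtain ⟨f, hfX, hfK, hfI⟩ := hf
  obtain ⟨Y, hY, hYs, hxY⟩ := hstep f hfK hfI
  have hne : supp X ≠ supp Y := by
    intro h
    have : f ∈ supp Y := h ▸ hfX
    rcases hYs this with h' | h'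
    · subst h'; exact hfI hxI
    · exact h'.2 rfl
  obtain ⟨Z, hZ, hZs⟩ := O.unsigned_elim hX hY hne hxX hxY
  apply hK Z hZ
  intro g hg
  obtain ⟨h1, h2⟩ := hZs hg
  rcases h1 with h1 | h1
  · rcases hXs h1 with h | h
    · exact absurd h h2
    · exact h.1
  · rcases hYs h1 with h | h
    · exact absurd h h2
    · exact h.1

/-- The underlying matroid: its ground set is all of `α` and a set is independent iff it contains
no support of a signed circuit (so its circuits are the supports of the signed circuits). -/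
def underlying (O : OrientedMatroid α) : Matroid α :=
  (IndepMatroid.ofFinite (toFinite univ) O.Indep
    (by
      intro X hX hs
      apply O.zero_notMem
      have : X = 0 := by
        funext e
        by_contra h
        exact hs (show e ∈ supp X from h)
      rwa [this] at hX)
    (fun I J hJ hIJ X hX hs => hJ X hX (hs.trans hIJ))
    (fun I J hI hJ h => O.indep_aug hI hJ h)
    (fun I _ => subset_univ I)).matroid

@[simp] theorem underlying_E (O : OrientedMatroid α) : O.underlying.E = univ := rfl

theorem underlying_indep (O : OrientedMatroid α) (I : Set α) :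
    O.underlying.Indep I ↔ O.Indep I := by
  simp [underlying]

/-- `O'` (on `Option α`, the new element being `none`) is a single-element extension of `O`: the
deletion of `none` from `O'` is `O`, that is, the signed circuits of `O` are those signed circuits
of `O'` whose support avoids `none`. -/
def IsExtension (O : OrientedMatroid α) (O' : OrientedMatroid (Option α)) : Prop :=
  ∀ X : α → SignType, X ∈ O.circuits ↔ (fun o : Option α => o.elim 0 X) ∈ O'.circuits

/-- The extension `O'` of `O` corresponds to the set `𝓜` of flats: `𝓜` consists of the flats `F`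
of the underlying matroid of `O` whose closure in the underlying matroid of `O'` contains the new
element. -/
def CorrespondsTo (O : OrientedMatroid α) (O' : OrientedMatroid (Option α))
    (𝓜 : Set (Set α)) : Prop :=
  ∀ F : Set α, F ∈ 𝓜 ↔
    (O.underlying.IsFlat F ∧ none ∈ O'.underlying.closure (some '' F))

end OrientedMatroid

/-- Modular cuts of a matroid. -/
def IsModularCut {α : Type} (N : Matroid α) (𝓜 : Set (Set α)) : Prop :=
  (∀ F ∈ 𝓜, N.IsFlat F) ∧
  (∀ F ∈ 𝓜, ∀ G, N.IsFlat G → F ⊆ G → G ∈ 𝓜) ∧
  (∀ F ∈ 𝓜, ∀ G ∈ 𝓜, N.eRk F + N.eRk G = N.eRk (F ∪ G) + N.eRk (F ∩ G) → F ∩ G ∈ 𝓜)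


/-! ### Circuits of the underlying matroid -/

namespace OrientedMatroid

variable {α : Type} [Finite α]

theorem underlying_isCircuit (O : OrientedMatroid α) (C : Set α) :
    O.underlying.IsCircuit C ↔ ∃ X ∈ O.circuits, supp X = C := by
  rw [Matroid.isCircuit_iff_minimal_not_indep (by simp)]
  constructor
  · intro h
    have h1 : ¬ O.Indep C := by
      have := h.prop
      rwa [underlying_indep] at this
    unfold Indep at h1
    push Not at h1
    obtain ⟨X, hX, hs⟩ := h1
    refine ⟨X, hX, ?_⟩
    have h2 : ¬ O.underlying.Indep (supp X) := by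
      rw [underlying_indep]
      intro h3
      exact h3 X hX subset_rfl
    exact subset_antisymm hs (h.le_of_le h2 hs)
  · rintro ⟨X, hX, rfl⟩
    refine ⟨?_, ?_⟩
    · show ¬ O.underlying.Indep (supp X)
      rw [underlying_indep]
      intro h3
      exact h3 X hX subset_rfl
    · intro D hD hDs
      rw [underlying_indep] at hD
      unfold Indep at hD
      push Not at hD
      obtain ⟨Y, hY, hs⟩ := hD
      have : supp Y = supp X := by
        rcases O.eq_or_eq_neg Y hY X hX (fun e he => hDs (hs he)) with h | h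
        · rw [h]
        · rw [h]; ext f; simp [supp]
      exact this ▸ hs

theorem mem_closure_iff (O : OrientedMatroid α) {e : α} {F : Set α} (he : e ∉ F) :
    e ∈ O.underlying.closure F ↔ ∃ X ∈ O.circuits, X e ≠ 0 ∧ supp X ⊆ insert e F := by
  rw [Matroid.mem_closure_iff_exists_isCircuit he]
  constructor
  · rintro ⟨C, hCs, hC, heC⟩
    rw [underlying_isCircuit] at hC
    obtain ⟨X, hX, rfl⟩ := hC
    exact ⟨X, hX, heC, hCs⟩
  · rintro ⟨X, hX, h1, h2⟩
    exact ⟨supp X, h2, (O.underlying_isCircuit _).2 ⟨X, hX, rfl⟩, h1⟩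

theorem isFlat_iff (O : OrientedMatroid α) (F : Set α) :
    O.underlying.IsFlat F ↔
      ∀ X ∈ O.circuits, ∀ e, e ∉ F → X e ≠ 0 → ¬ supp X ⊆ insert e F := by
  rw [Matroid.isFlat_iff_closure_eq]
  constructor
  · intro h X hX e he hXe hs
    apply he
    rw [← h]
    exact (O.mem_closure_iff he).2 ⟨X, hX, hXe, hs⟩
  · intro h
    refine subset_antisymm ?_ (O.underlying.subset_closure F (by simp))
    intro e he
    by_contra hne
    obtain ⟨X, hX, h1, h2⟩ := (O.mem_closure_iff hne).1 he
    exact h X hX e hne h1 h2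

end OrientedMatroid

/-! ### Oriented matroids from lists of bit masks -/

/-- Does the list contain a mask included in `U`? -/
noncomputable def anySub (U : ℕ) (L : List ℕ) : Bool :=
  List.rec (motive := fun _ => Bool) false
    (fun z _ ih => cond (Nat.beq (Nat.lor z U) U) true ih) L

/-- Exchange the positive and the negative part. -/
def swp (k : ℕ) : ℕ := Nat.add (Nat.div k 512) (Nat.mul 512 (Nat.mod k 512))

/-- The check for one instance of elimination. -/
noncomputable def elimOne (L : List ℕ) (c d e : ℕ) : Bool :=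
  cond (Nat.beq (Nat.land c (Nat.pow 2 e)) 0) true
    (cond (Nat.beq (Nat.land d (Nat.pow 2 (Nat.add e 9))) 0) true
      (Nat.beq (Nat.land (Nat.xor (Nat.lor c d) (Nat.mul 513 (Nat.pow 2 e))) (Nat.pow 2 e)) 0 &&
       Nat.beq (Nat.land (Nat.xor (Nat.lor c d) (Nat.mul 513 (Nat.pow 2 e)))
        (Nat.pow 2 (Nat.add e 9))) 0 &&
       Nat.beq (Nat.lor (Nat.xor (Nat.lor c d) (Nat.mul 513 (Nat.pow 2 e))) (Nat.lor c d))
        (Nat.lor c d) &&
       anySub (Nat.xor (Nat.lor c d) (Nat.mul 513 (Nat.pow 2 e))) L))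

/-- The check of the elimination axiom for one pair. -/
noncomputable def elimPair (L : List ℕ) (c d : ℕ) : Bool :=
  cond (Nat.beq c (swp d)) true (cond (Nat.ble c (swp d))
    (elimOne L c d 0 && elimOne L c d 1 && elimOne L c d 2 && elimOne L c d 3 &&
      elimOne L c d 4 && elimOne L c d 5 && elimOne L c d 6 && elimOne L c d 7 &&
      elimOne L c d 8) true)

/-- The support mask. -/
def msk (k : ℕ) : ℕ := Nat.lor (Nat.div k 512) (Nat.mod k 512)

/-- Boolean check of the signed circuit axioms for a list of masks. -/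
noncomputable def checkL (n : ℕ) (L : List ℕ) : Bool :=
  (L.all fun c => Nat.beq (Nat.land (Nat.div c 512) (Nat.mod c 512)) 0 && !(Nat.beq c 0) &&
    Nat.blt (msk c) (Nat.pow 2 n) && (L.any fun d => Nat.beq d (swp c))) &&
  (L.all fun c => L.all fun d =>
    (!(Nat.beq (Nat.lor (msk c) (msk d)) (msk d)) || (Nat.beq c d || Nat.beq c (swp d)))) &&
  (L.all fun c => L.all fun d => elimPair L c d)

theorem anySub_spec {U : ℕ} {L : List ℕ} (h : anySub U L = true) : ∃ z ∈ L, z ||| U = U := by
  induction L with
  | nil => exact absurd h (by simp [anySub])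
  | cons z L ih =>
    have h' : cond (Nat.beq (Nat.lor z U) U) true (anySub U L) = true := h
    rcases hb : Nat.beq (Nat.lor z U) U with _ | _
    · rw [hb] at h'
      obtain ⟨y, hy, hyU⟩ := ih h'
      exact ⟨y, List.mem_cons_of_mem _ hy, hyU⟩
    · exact ⟨z, List.mem_cons_self, Nat.eq_of_beq_eq_true hb⟩

/-- The sign at position `i` of the signed set with mask `k`: bit `i` means positive, bit `i + 9`
means negative. -/
def sg (k : ℕ) (i : ℕ) : SignType :=
  if k.testBit i then 1 else if k.testBit (i + 9) then -1 else 0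

theorem testBit_or_eq {a b : ℕ} (h : a ||| b = b) {i : ℕ} (ha : a.testBit i = true) :
    b.testBit i = true := by
  rw [← h, Nat.testBit_or, ha]; simp

theorem or_eq_of_testBit {a b : ℕ} (h : ∀ i, a.testBit i = true → b.testBit i = true) :
    a ||| b = b := by
  apply Nat.eq_of_testBit_eq
  intro i
  rw [Nat.testBit_or]
  rcases ha : a.testBit i with _ | _
  · simp
  · simp [h i ha]

theorem testBit_big {m n i : ℕ} (h : m < 2 ^ n) (hi : n ≤ i) : m.testBit i = false :=
  Nat.testBit_lt_two_pow (lt_of_lt_of_le h (Nat.pow_le_pow_right (by norm_num) hi))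

theorem testBit_msk (k i : ℕ) :
    (msk k).testBit i = (k.testBit (i + 9) || (decide (i < 9) && k.testBit i)) := by
  have h1 : msk k = (k / 2 ^ 9) ||| (k % 2 ^ 9) := rfl
  rw [h1, Nat.testBit_or, Nat.testBit_div_two_pow, Nat.testBit_mod_two_pow]

/-- A mask is good if it has no bits from `18` on and the positive and negative part are
disjoint. -/
structure Good (k : ℕ) : Prop where
  lt : k < 2 ^ 18
  disj : ∀ i, i < 9 → ¬ (k.testBit i = true ∧ k.testBit (i + 9) = true)

theorem testBit_swp {k : ℕ} (hk : k < 2 ^ 18) (i : ℕ) :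
    (swp k).testBit i = if i < 9 then k.testBit (i + 9) else (decide (i - 9 < 9) &&
      k.testBit (i - 9)) := by
  have h1 : swp k = 2 ^ 9 * (k % 2 ^ 9) + k / 2 ^ 9 := by
    show k / 512 + 512 * (k % 512) = _
    norm_num
    ring
  have h2 : k / 2 ^ 9 < 2 ^ 9 := by
    apply Nat.div_lt_of_lt_mul
    calc k < 2 ^ 18 := hk
      _ = 2 ^ 9 * 2 ^ 9 := by norm_num
  rw [h1, Nat.testBit_two_pow_mul_add _ h2]
  split_ifs with h
  · rw [Nat.testBit_div_two_pow]
  · rw [Nat.testBit_mod_two_pow]

theorem swp_lt {k : ℕ} (hk : k < 2 ^ 18) : swp k < 2 ^ 18 := by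
  have h2 : k / 512 < 512 := by omega
  have h3 : k % 512 < 512 := Nat.mod_lt _ (by norm_num)
  show k / 512 + 512 * (k % 512) < 2 ^ 18
  norm_num
  omega

theorem swp_swp {k : ℕ} (hk : k < 2 ^ 18) : swp (swp k) = k := by
  show (k / 512 + 512 * (k % 512)) / 512 + 512 * ((k / 512 + 512 * (k % 512)) % 512) = k
  have h2 : k / 512 < 512 := by omega
  omega

theorem sg_eq_one {c : ℕ} {i : ℕ} : sg c i = 1 ↔ c.testBit i = true := by
  unfold sg
  split_ifs with h1 h2
  · simp [h1]
  · simp [h1]
  · simp [h1]

theorem sg_eq_neg_one {c : ℕ} (hc : Good c) {i : ℕ} (hi : i < 9) :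
    sg c i = -1 ↔ c.testBit (i + 9) = true := by
  have h0 := hc.disj i hi
  unfold sg
  split_ifs with h1 h2
  · constructor
    · intro h; exact absurd h (by decide)
    · intro h; exact absurd ⟨h1, h⟩ h0
  · simp [h2]
  · simp [h2]

theorem sg_ne_zero {c : ℕ} {i : ℕ} :
    sg c i ≠ 0 ↔ (c.testBit i = true ∨ c.testBit (i + 9) = true) := by
  unfold sg
  split_ifs with h1 h2
  · simp [h1]
  · simp [h2]
  · simp [h1, h2]

theorem sg_swp {c : ℕ} (hc : Good c) {i : ℕ} (hi : i < 9) : sg (swp c) i = - sg c i := by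
  have h0 := hc.disj i hi
  have h1 := testBit_swp hc.lt i
  have h2 := testBit_swp hc.lt (i + 9)
  rw [if_pos hi] at h1
  rw [if_neg (by omega), Nat.add_sub_cancel, decide_eq_true hi, Bool.true_and] at h2
  unfold sg
  rw [h1, h2]
  rcases h3 : c.testBit i <;> rcases h4 : c.testBit (i + 9) <;> simp_all

theorem checkL_basic {n : ℕ} (hn : n ≤ 9) {L : List ℕ} (h : checkL n L = true) {c : ℕ}
    (hc : c ∈ L) : Good c ∧ c ≠ 0 ∧ msk c < 2 ^ n ∧ swp c ∈ L := by
  unfold checkL at h
  rw [Bool.and_eq_true, Bool.and_eq_true] at h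
  have h1 := h.1.1
  rw [List.all_eq_true] at h1
  have h2 := h1 c hc
  rw [Bool.and_eq_true, Bool.and_eq_true, Bool.and_eq_true] at h2
  obtain ⟨⟨⟨h3, h4⟩, h5⟩, h6⟩ := h2
  have h3' : (c / 512) &&& (c % 512) = 0 := Nat.eq_of_beq_eq_true h3
  have h4' : c ≠ 0 := by
    rintro rfl
    simp at h4
  have h5' : msk c < 2 ^ n := by
    rw [Nat.blt_eq] at h5
    exact h5
  rw [List.any_eq_true] at h6
  obtain ⟨d, hd, hdc⟩ := h6
  have h6' : d = swp c := Nat.eq_of_beq_eq_true hdc
  have hlt : c / 512 < 512 := by
    have h7 : c / 512 ≤ msk c := Nat.left_le_or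
    have h8 : 2 ^ n ≤ 2 ^ 9 := Nat.pow_le_pow_right (by norm_num) hn
    have h9 : (2 : ℕ) ^ 9 = 512 := by norm_num
    omega
  refine ⟨⟨?_, ?_⟩, h4', h5', h6' ▸ hd⟩
  · have h9 : (2 : ℕ) ^ 18 = 512 * 512 := by norm_num
    omega
  · intro i hi hb
    have h10 : ((c / 2 ^ 9) &&& (c % 2 ^ 9)).testBit i = true := by
      rw [Nat.testBit_and, Nat.testBit_div_two_pow, Nat.testBit_mod_two_pow, hb.2, hb.1]
      simp [hi]
    have h11 : (c / 2 ^ 9) &&& (c % 2 ^ 9) = 0 := h3'
    rw [h11] at h10
    simp at h10

theorem checkL_incomp {n : ℕ} {L : List ℕ} (h : checkL n L = true) {c d : ℕ}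
    (hc : c ∈ L) (hd : d ∈ L) (hs : msk c ||| msk d = msk d) :
    c = d ∨ c = swp d := by
  unfold checkL at h
  rw [Bool.and_eq_true, Bool.and_eq_true] at h
  have h1 := h.1.2
  rw [List.all_eq_true] at h1
  have h2 := h1 c hc
  rw [List.all_eq_true] at h2
  have h3 := h2 d hd
  rw [Bool.or_eq_true, Bool.or_eq_true] at h3
  rcases h3 with h4 | h4 | h4
  · exfalso
    have h5 : Nat.beq (Nat.lor (msk c) (msk d)) (msk d) = true := by
      rw [Nat.beq_eq]; exact hs
    rw [h5] at h4
    simp at h4
  · exact Or.inl (Nat.eq_of_beq_eq_true h4)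
  · exact Or.inr (Nat.eq_of_beq_eq_true h4)

theorem elimOne_spec {L : List ℕ} {c d e : ℕ} (h : elimOne L c d e = true)
    (h1 : c.testBit e = true) (h2 : d.testBit (e + 9) = true) :
    ∃ z ∈ L, (∀ i, z.testBit i = true → (c.testBit i = true ∨ d.testBit i = true)) ∧
      z.testBit e = false ∧ z.testBit (e + 9) = false := by
  unfold elimOne at h
  have g1 : Nat.beq (Nat.land c (Nat.pow 2 e)) 0 = false := by
    by_contra hb
    have hb' : Nat.beq (Nat.land c (Nat.pow 2 e)) 0 = true := by simpa using hb
    have hb2 : c &&& 2 ^ e = 0 := Nat.eq_of_beq_eq_true hb'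
    have hb3 : (c &&& 2 ^ e).testBit e = true := by
      rw [Nat.testBit_and, h1, Nat.testBit_two_pow_self]; rfl
    rw [hb2] at hb3
    simp at hb3
  have g2 : Nat.beq (Nat.land d (Nat.pow 2 (Nat.add e 9))) 0 = false := by
    by_contra hb
    have hb' : Nat.beq (Nat.land d (Nat.pow 2 (Nat.add e 9))) 0 = true := by simpa using hb
    have hb2 : d &&& 2 ^ (e + 9) = 0 := Nat.eq_of_beq_eq_true hb'
    have hb3 : (d &&& 2 ^ (e + 9)).testBit (e + 9) = true := by
      rw [Nat.testBit_and, h2, Nat.testBit_two_pow_self]; rfl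
    rw [hb2] at hb3
    simp at hb3
  rw [g1, g2] at h
  simp only [cond_false] at h
  rw [Bool.and_eq_true, Bool.and_eq_true, Bool.and_eq_true] at h
  obtain ⟨⟨⟨h3, h4⟩, h5⟩, h6⟩ := h
  set U := Nat.xor (Nat.lor c d) (Nat.mul 513 (Nat.pow 2 e)) with hU
  obtain ⟨z, hz, hzU⟩ := anySub_spec h6
  have h3' : U &&& 2 ^ e = 0 := Nat.eq_of_beq_eq_true h3
  have h4' : U &&& 2 ^ (e + 9) = 0 := Nat.eq_of_beq_eq_true h4
  have h5' : U ||| (c ||| d) = c ||| d := Nat.eq_of_beq_eq_true h5
  refine ⟨z, hz, ?_, ?_, ?_⟩
  · intro i hi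
    have := testBit_or_eq h5' (testBit_or_eq hzU hi)
    rw [Nat.testBit_or, Bool.or_eq_true] at this
    exact this
  · by_contra hb
    have hb' : z.testBit e = true := by simpa using hb
    have hb2 : (U &&& 2 ^ e).testBit e = true := by
      rw [Nat.testBit_and, testBit_or_eq hzU hb', Nat.testBit_two_pow_self]; rfl
    rw [h3'] at hb2
    simp at hb2
  · by_contra hb
    have hb' : z.testBit (e + 9) = true := by simpa using hb
    have hb2 : (U &&& 2 ^ (e + 9)).testBit (e + 9) = true := by
      rw [Nat.testBit_and, testBit_or_eq hzU hb', Nat.testBit_two_pow_self]; rfl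
    rw [h4'] at hb2
    simp at hb2

theorem checkL_elim0 {n : ℕ} {L : List ℕ} (h : checkL n L = true) {c d : ℕ}
    (hc : c ∈ L) (hd : d ∈ L) (hne : c ≠ swp d) (hle : c ≤ swp d) {e : ℕ} (he : e < 9)
    (h1 : c.testBit e = true) (h2 : d.testBit (e + 9) = true) :
    ∃ z ∈ L, (∀ i, z.testBit i = true → (c.testBit i = true ∨ d.testBit i = true)) ∧
      z.testBit e = false ∧ z.testBit (e + 9) = false := by
  unfold checkL at h
  rw [Bool.and_eq_true, Bool.and_eq_true] at h
  have h3 := h.2
  rw [List.all_eq_true] at h3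
  have h4 := h3 c hc
  rw [List.all_eq_true] at h4
  have h5 := h4 d hd
  unfold elimPair at h5
  have g1 : Nat.beq c (swp d) = false := by
    by_contra hb
    have hb' : Nat.beq c (swp d) = true := by simpa using hb
    exact hne (Nat.eq_of_beq_eq_true hb')
  have g2 : Nat.ble c (swp d) = true := Nat.ble_eq_true_of_le hle
  rw [g1, g2] at h5
  simp only [cond_false, cond_true, Bool.and_eq_true] at h5
  obtain ⟨⟨⟨⟨⟨⟨⟨⟨k0, k1⟩, k2⟩, k3⟩, k4⟩, k5⟩, k6⟩, k7⟩, k8⟩ := h5
  interval_cases e
  · exact elimOne_spec k0 h1 h2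
  · exact elimOne_spec k1 h1 h2
  · exact elimOne_spec k2 h1 h2
  · exact elimOne_spec k3 h1 h2
  · exact elimOne_spec k4 h1 h2
  · exact elimOne_spec k5 h1 h2
  · exact elimOne_spec k6 h1 h2
  · exact elimOne_spec k7 h1 h2
  · exact elimOne_spec k8 h1 h2

theorem checkL_elim {n : ℕ} (hn : n ≤ 9) {L : List ℕ} (h : checkL n L = true) {c d : ℕ}
    (hc : c ∈ L) (hd : d ∈ L) (hne : c ≠ swp d) {e : ℕ} (he : e < 9)
    (h1 : c.testBit e = true) (h2 : d.testBit (e + 9) = true) :
    ∃ z ∈ L, (∀ i < 18, z.testBit i = true → (c.testBit i = true ∨ d.testBit i = true)) ∧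
      z.testBit e = false ∧ z.testBit (e + 9) = false := by
  rcases le_total c (swp d) with hle | hle
  · obtain ⟨z, hz, g1, g2, g3⟩ := checkL_elim0 h hc hd hne hle he h1 h2
    exact ⟨z, hz, fun i _ => g1 i, g2, g3⟩
  · obtain ⟨Gc, -, -, mc⟩ := checkL_basic hn h hc
    obtain ⟨Gd, -, -, md⟩ := checkL_basic hn h hd
    have hs := swp_swp Gc.lt
    have t1 := testBit_swp Gd.lt e
    have t2 := testBit_swp Gc.lt (e + 9)
    rw [if_pos he] at t1
    rw [if_neg (by omega), Nat.add_sub_cancel, decide_eq_true he, Bool.true_and] at t2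
    obtain ⟨z, hz, g1, g2, g3⟩ := checkL_elim0 h (c := swp d) (d := swp c) md mc
      (by rw [hs]; exact hne.symm) (by rw [hs]; exact hle) he (by rw [t1]; exact h2)
      (by rw [t2]; exact h1)
    obtain ⟨Gz, -, -, mz⟩ := checkL_basic hn h hz
    refine ⟨swp z, mz, ?_, ?_, ?_⟩
    · intro i hi hzi
      rw [testBit_swp Gz.lt] at hzi
      split_ifs at hzi with h9
      · rcases g1 _ hzi with h10 | h10
        · rw [testBit_swp Gd.lt, if_neg (by omega), Nat.add_sub_cancel, decide_eq_true h9,
            Bool.true_and] at h10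
          exact Or.inr h10
        · rw [testBit_swp Gc.lt, if_neg (by omega), Nat.add_sub_cancel, decide_eq_true h9,
            Bool.true_and] at h10
          exact Or.inl h10
      · have h11 : i - 9 < 9 := by omega
        rw [decide_eq_true h11, Bool.true_and] at hzi
        have h12 : i - 9 + 9 = i := by omega
        rcases g1 _ hzi with h10 | h10
        · rw [testBit_swp Gd.lt, if_pos h11, h12] at h10
          exact Or.inr h10
        · rw [testBit_swp Gc.lt, if_pos h11, h12] at h10
          exact Or.inl h10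
    · rw [testBit_swp Gz.lt, if_pos he]; exact g3
    · rw [testBit_swp Gz.lt, if_neg (by omega), Nat.add_sub_cancel, g2]; simp

/-- The oriented matroid given by a list of masks passing the check. -/
def ofList {α : Type} [Finite α] (n : ℕ) (hn : n ≤ 9) (ι : α → ℕ) (hι : ∀ a, ι a < n)
    (hsurj : ∀ i < n, ∃ a, ι a = i) (L : List ℕ) (h : checkL n L = true) :
    OrientedMatroid α where
  circuits := {X | ∃ c ∈ L, X = fun a => sg c (ι a)}
  zero_notMem := by
    rintro ⟨c, hc, h0⟩
    obtain ⟨G, h2, h3, h4⟩ := checkL_basic hn h hc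
    have h5 : ∀ i < 9, c.testBit i = false ∧ c.testBit (i + 9) = false := by
      intro i hi
      by_cases hin : i < n
      · obtain ⟨a, rfl⟩ := hsurj i hin
        have h6 : ¬ (sg c (ι a) ≠ 0) := by
          intro h7; exact h7 (congrFun h0 a).symm
        rw [sg_ne_zero] at h6
        push Not at h6
        simpa using h6
      · push Not at hin
        have h7 := testBit_big h3 hin
        rw [testBit_msk, Bool.or_eq_false_iff, Bool.and_eq_false_iff] at h7
        refine ⟨?_, h7.1⟩
        rcases h7.2 with h8 | h8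
        · simp [hi] at h8
        · exact h8
    apply h2
    apply Nat.eq_of_testBit_eq
    intro i
    rw [Nat.zero_testBit]
    by_cases h6 : i < 9
    · exact (h5 i h6).1
    · by_cases h7 : i < 18
      · have := (h5 (i - 9) (by omega)).2
        rwa [show i - 9 + 9 = i by omega] at this
      · exact testBit_big G.lt (by omega)
  neg_mem := by
    rintro X ⟨c, hc, rfl⟩
    obtain ⟨G, h2, h3, h4⟩ := checkL_basic hn h hc
    refine ⟨_, h4, ?_⟩
    funext a
    rw [sg_swp G (lt_of_lt_of_le (hι a) hn)]; rfl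
  eq_or_eq_neg := by
    rintro X ⟨c, hc, rfl⟩ Y ⟨d, hd, rfl⟩ hs
    obtain ⟨Gc, h2, h3, h4⟩ := checkL_basic hn h hc
    obtain ⟨Gd, g2, g3, g4⟩ := checkL_basic hn h hd
    have key : msk c ||| msk d = msk d := by
      apply or_eq_of_testBit
      intro i hi
      by_cases hin : i < n
      · obtain ⟨a, rfl⟩ := hsurj i hin
        have h9 : ι a < 9 := lt_of_lt_of_le (hι a) hn
        rw [testBit_msk] at hi ⊢
        rw [decide_eq_true h9, Bool.true_and, Bool.or_eq_true] at hi ⊢
        have := sg_ne_zero.1 (hs a (sg_ne_zero.2 hi.symm))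
        exact this.symm
      · push Not at hin
        rw [testBit_big h3 hin] at hi
        simp at hi
    rcases checkL_incomp h hc hd key with h6 | h6
    · left; rw [h6]
    · right
      funext a
      rw [h6, sg_swp Gd (lt_of_lt_of_le (hι a) hn)]; rfl
  elimination := by
    rintro X ⟨c, hc, rfl⟩ Y ⟨d, hd, rfl⟩ hne e hXe hYe
    obtain ⟨Gc, h2, h3, h4⟩ := checkL_basic hn h hc
    obtain ⟨Gd, g2, g3, g4⟩ := checkL_basic hn h hd
    have hne' : c ≠ swp d := by
      intro h6
      apply hne
      funext a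
      rw [h6, sg_swp Gd (lt_of_lt_of_le (hι a) hn)]; rfl
    have he9 : ι e < 9 := lt_of_lt_of_le (hι e) hn
    obtain ⟨z, hz, e1, e3, e4⟩ := checkL_elim hn h hc hd hne' he9 (sg_eq_one.1 hXe)
      ((sg_eq_neg_one Gd he9).1 hYe)
    obtain ⟨Gz, z2, z3, z4⟩ := checkL_basic hn h hz
    refine ⟨_, ⟨z, hz, rfl⟩, ?_, ?_⟩
    · show sg z (ι e) = 0
      unfold sg; simp [e3, e4]
    · intro f
      have hf9 : ι f < 9 := lt_of_lt_of_le (hι f) hn
      constructor
      · intro hf
        rcases e1 _ (by omega) (sg_eq_one.1 hf) with h6 | h6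
        · exact Or.inl (sg_eq_one.2 h6)
        · exact Or.inr (sg_eq_one.2 h6)
      · intro hf
        rcases e1 _ (by omega) ((sg_eq_neg_one Gz hf9).1 hf) with h6 | h6
        · exact Or.inl ((sg_eq_neg_one Gc hf9).2 h6)
        · exact Or.inr ((sg_eq_neg_one Gd hf9).2 h6)

/-- The signed circuits of the alternating oriented matroid of rank `5` on `8` elements. -/
def L8 : List ℕ :=
  [19090, 38052, 43176, 37522, 19018, 37524, 35490, 21588, 38036, 42148, 35466, 10794, 21074,
   21076, 84041, 21652, 74793, 41634, 86097, 75817, 70725, 42152, 37538, 10826, 19026, 19082,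
   74789, 41636, 70677, 21138, 35474, 75849, 84049, 10890, 43049, 21140, 37540, 70693, 83013,
   41640, 37909, 86098, 75818, 74821, 83017, 42021, 84042, 74825, 83025, 37925, 42025, 21525,
   84050, 75850, 43050, 86100]

/-- The signed circuits of its lexicographic extension by a point on the line `{0, 1}`;
the new point is the bit `8`. -/
def L9 : List ℕ :=
  [1792, 19090, 84296, 38052, 131075, 43176, 37522, 19018, 19280, 86352, 37524, 75044, 11144,
   35490, 76104, 21588, 21392, 38036, 42280, 42148, 35466, 41888, 10794, 83268, 21074, 70932,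
   19336, 76072, 21076, 84041, 37792, 11080, 35728, 21652, 74793, 41634, 151698, 149586, 86097,
   75817, 70948, 75076, 168100, 70725, 42152, 11048, 37538, 166034, 10826, 84304, 75080, 19026,
   35720, 19082, 42276, 172196, 74789, 141354, 83272, 21328, 19272, 37776, 172194, 41636, 70677,
   21138, 38164, 149578, 35474, 43304, 19344, 35744, 168082, 38180, 168084, 166026, 75849, 84049,
   151634, 75048, 10890, 43049, 70980, 83280, 151636, 213061, 21140, 37540, 70693, 83013, 41640,
   37909, 200725, 204837, 141386, 168098, 21780, 151700, 172200, 86098, 75818, 74821, 83017,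
   42021, 149642, 200741, 172069, 204869, 204841, 167957, 213065, 84042, 200773, 167973, 204873,
   74825, 83025, 141450, 149650, 166050, 151573, 172073, 213073, 37925, 42025, 21525, 84050,
   75850, 43050, 86100]

theorem check8 : checkL 8 L8 = true := by decide +kernel

theorem check9 : checkL 9 L9 = true := by decide +kernel


/-- The alternating oriented matroid of rank `5` on `8` elements. -/
def O8 : OrientedMatroid (Fin 8) :=
  ofList 8 (by norm_num) (fun i => i.val) (fun i => i.2) (fun i hi => ⟨⟨i, hi⟩, rfl⟩) L8 check8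

/-- Positions of the elements of the extension. -/
def pos9 (o : Option (Fin 8)) : ℕ := o.elim 8 (fun i => i.val)

theorem pos9_lt (o : Option (Fin 8)) : pos9 o < 9 := by
  rcases o with _ | i
  · show 8 < 9; norm_num
  · show i.val < 9; omega

theorem pos9_surj (i : ℕ) (hi : i < 9) : ∃ o, pos9 o = i := by
  rcases Nat.lt_or_ge i 8 with h | h
  · exact ⟨some ⟨i, h⟩, rfl⟩
  · exact ⟨none, by show 8 = i; omega⟩

theorem pos9_inj {o o' : Option (Fin 8)} (h : pos9 o = pos9 o') : o = o' := by
  rcases o with _ | i <;> rcases o' with _ | j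
  · rfl
  · have h' : 8 = j.val := h; omega
  · have h' : i.val = 8 := h; omega
  · have h' : i.val = j.val := h
    rw [Fin.ext h']

/-- The extension by a point in general position on the line `{0, 1}`. -/
def O9 : OrientedMatroid (Option (Fin 8)) :=
  ofList 9 le_rfl pos9 pos9_lt pos9_surj L9 check9

theorem mem_O8 {X : Fin 8 → SignType} : X ∈ O8.circuits ↔ ∃ c ∈ L8, X = fun a => sg c a.val :=
  Iff.rfl

theorem mem_O9 {X : Option (Fin 8) → SignType} :
    X ∈ O9.circuits ↔ ∃ c ∈ L9, X = fun a => sg c (pos9 a) :=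
  Iff.rfl

theorem fact_sub : ∀ c ∈ L8, c ∈ L9 ∧ c.testBit 8 = false ∧ c.testBit 17 = false := by
  decide +kernel

theorem fact_sup : ∀ c ∈ L9, c.testBit 8 = true ∨ c.testBit 17 = true ∨ c ∈ L8 := by
  decide +kernel

theorem isExtension : O8.IsExtension O9 := by
  intro X
  constructor
  · intro hX
    obtain ⟨c, hc, rfl⟩ := mem_O8.1 hX
    obtain ⟨h1, h2, h3⟩ := fact_sub c hc
    refine mem_O9.2 ⟨c, h1, ?_⟩
    funext o
    rcases o with _ | i
    · show 0 = sg c 8
      unfold sg; simp [h2, h3]
    · rfl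
  · intro hX
    obtain ⟨c, hc, h⟩ := mem_O9.1 hX
    have h0 : sg c 8 = 0 := (congrFun h none).symm
    have h1 : c ∈ L8 := by
      rcases fact_sup c hc with h2 | h2 | h2
      · exact absurd h0 (sg_ne_zero.2 (Or.inl h2))
      · exact absurd h0 (sg_ne_zero.2 (Or.inr h2))
      · exact h2
    refine mem_O8.2 ⟨c, h1, ?_⟩
    funext i
    exact congrFun h (some i)

/-- The subset of `Fin 8` with mask `s`. -/
def mset (s : ℕ) : Set (Fin 8) := {i | s.testBit i.val = true}

theorem mem_mset {s : ℕ} {i : Fin 8} : i ∈ mset s ↔ s.testBit i.val = true := Iff.rfl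

theorem sg_ne_zero_iff_msk {c i : ℕ} (hi : i < 9) : sg c i ≠ 0 ↔ (msk c).testBit i = true := by
  rw [sg_ne_zero, testBit_msk, decide_eq_true hi, Bool.true_and, Bool.or_eq_true]
  exact or_comm

theorem msk8_lt : ∀ c ∈ L8, msk c < 2 ^ 8 := by decide +kernel

theorem supp_sub_iff {c : ℕ} (hc : c ∈ L8) (s : ℕ) :
    supp (fun a : Fin 8 => sg c a.val) ⊆ mset s ↔ msk c ||| s = s := by
  constructor
  · intro h
    apply or_eq_of_testBit
    intro i hi
    by_cases h8 : i < 8
    · have h9 : (⟨i, h8⟩ : Fin 8) ∈ supp (fun a : Fin 8 => sg c a.val) := by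
        show sg c i ≠ 0
        exact (sg_ne_zero_iff_msk (by omega)).2 hi
      exact h h9
    · rw [testBit_big (msk8_lt c hc) (by omega)] at hi
      simp at hi
  · intro h i hi
    have h9 : sg c i.val ≠ 0 := hi
    exact testBit_or_eq h ((sg_ne_zero_iff_msk (by omega)).1 h9)

theorem insert_mset (s : ℕ) (e : Fin 8) : insert e (mset s) = mset (s ||| 2 ^ e.val) := by
  ext i
  rw [mem_insert_iff, mem_mset, mem_mset, Nat.testBit_or, Nat.testBit_two_pow, Bool.or_eq_true,
    decide_eq_true_eq]
  constructor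
  · rintro (h | h)
    · right; rw [h]
    · left; exact h
  · rintro (h | h)
    · right; exact h
    · left; exact Fin.ext h.symm

theorem flat_of_check {s : ℕ} (h : ∀ c ∈ L8, ∀ e < 8, s.testBit e = false →
    (msk c).testBit e = true → ¬ (msk c ||| (s ||| 2 ^ e) = s ||| 2 ^ e)) :
    O8.underlying.IsFlat (mset s) := by
  rw [OrientedMatroid.isFlat_iff]
  intro X hX e he hXe hs
  obtain ⟨c, hc, rfl⟩ := mem_O8.1 hX
  rw [insert_mset, supp_sub_iff hc] at hs
  exact h c hc e.val e.2 (by simpa [mem_mset] using he)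
    ((sg_ne_zero_iff_msk (by omega)).1 hXe) hs

theorem indep_of_check {s : ℕ} (h : ∀ c ∈ L8, ¬ (msk c ||| s = s)) :
    O8.underlying.Indep (mset s) := by
  rw [OrientedMatroid.underlying_indep]
  intro X hX hs
  obtain ⟨c, hc, rfl⟩ := mem_O8.1 hX
  rw [supp_sub_iff hc] at hs
  exact h c hc hs

theorem up_of_check {s : ℕ} (h : ∀ g < 8, s.testBit g = false → ∀ e < 8,
    (s ||| 2 ^ g).testBit e = true ∨ ∃ c ∈ L8, (msk c).testBit e = true ∧
      msk c ||| (s ||| 2 ^ g ||| 2 ^ e) = s ||| 2 ^ g ||| 2 ^ e) {G : Set (Fin 8)}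
    (hG : O8.underlying.IsFlat G) (hs : mset s ⊆ G) : G = mset s ∨ G = univ := by
  by_cases hGs : G ⊆ mset s
  · left; exact subset_antisymm hGs hs
  · right
    rw [not_subset] at hGs
    obtain ⟨g, hgG, hgs⟩ := hGs
    have hsub : mset (s ||| 2 ^ g.val) ⊆ G := by
      rw [← insert_mset]
      exact insert_subset hgG hs
    rw [eq_univ_iff_forall]
    intro e
    rcases h g.val g.2 (by simpa [mem_mset] using hgs) e.val e.2 with h1 | ⟨c, hc, h1, h2⟩
    · exact hsub h1
    · by_contra he
      rw [OrientedMatroid.isFlat_iff] at hG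
      refine hG _ (mem_O8.2 ⟨c, hc, rfl⟩) e he ((sg_ne_zero_iff_msk (by omega)).2 h1) ?_
      refine ((supp_sub_iff hc _).2 h2).trans ?_
      rw [← insert_mset]
      exact insert_subset_insert hsub

/-! The three hyperplanes `{0,1,2,4}`, `{0,1,3,5}`, `{0,1,6,7}` have masks `23`, `43`, `195`. -/

theorem flat23 : O8.underlying.IsFlat (mset 23) := flat_of_check (by decide +kernel)
theorem flat43 : O8.underlying.IsFlat (mset 43) := flat_of_check (by decide +kernel)
theorem flat195 : O8.underlying.IsFlat (mset 195) := flat_of_check (by decide +kernel)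
theorem flat19 : O8.underlying.IsFlat (mset 19) := flat_of_check (by decide +kernel)
theorem indep23 : O8.underlying.Indep (mset 23) := indep_of_check (by decide +kernel)
theorem indep43 : O8.underlying.Indep (mset 43) := indep_of_check (by decide +kernel)
theorem indep195 : O8.underlying.Indep (mset 195) := indep_of_check (by decide +kernel)

/-- The modular cut generated by the line `{0, 1}`. -/
def cutM : Set (Set (Fin 8)) := {F | O8.underlying.IsFlat F ∧ 0 ∈ F ∧ 1 ∈ F}

/-- The modular cut consisting of `E` and three hyperplanes. -/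
def cutM' : Set (Set (Fin 8)) := {univ, mset 23, mset 43, mset 195}

theorem inter_flat {F G : Set (Fin 8)} (hF : O8.underlying.IsFlat F)
    (hG : O8.underlying.IsFlat G) : O8.underlying.IsFlat (F ∩ G) := by
  rw [Matroid.isFlat_iff_closure_eq]
  refine subset_antisymm ?_ (O8.underlying.subset_closure _ (by simp))
  refine subset_inter ?_ ?_
  · exact (O8.underlying.closure_subset_closure inter_subset_left).trans
      (by rw [hF.closure])
  · exact (O8.underlying.closure_subset_closure inter_subset_right).trans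
      (by rw [hG.closure])

theorem modularCut_cutM : IsModularCut O8.underlying cutM := by
  refine ⟨fun F hF => hF.1, fun F hF G hG hs => ⟨hG, hs hF.2.1, hs hF.2.2⟩, ?_⟩
  intro F hF G hG _
  exact ⟨inter_flat hF.1 hG.1, ⟨hF.2.1, hG.2.1⟩, ⟨hF.2.2, hG.2.2⟩⟩

theorem univ_flat : O8.underlying.IsFlat univ := by
  have := O8.underlying.ground_isFlat
  rwa [OrientedMatroid.underlying_E] at this

theorem encard_mset {s : ℕ} {S : Finset (Fin 8)} (h : ∀ i : Fin 8, s.testBit i.val = true ↔ i ∈ S) :
    (mset s).encard = S.card := by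
  have : mset s = (S : Set (Fin 8)) := by
    ext i; rw [mem_mset, h i]; rfl
  rw [this, encard_coe_eq_coe_finsetCard]

theorem eRk_four {s : ℕ} (hs : O8.underlying.Indep (mset s))
    {S : Finset (Fin 8)} (h : ∀ i : Fin 8, s.testBit i.val = true ↔ i ∈ S) (h4 : S.card = 4) :
    O8.underlying.eRk (mset s) = 4 := by
  rw [hs.eRk_eq_encard, encard_mset h, h4]; rfl

theorem not_modular {s t : ℕ} (hs : O8.underlying.eRk (mset s) = 4)
    (ht : O8.underlying.eRk (mset t) = 4)
    {S T : Finset (Fin 8)} (hS : ∀ i : Fin 8, (s &&& t).testBit i.val = true ↔ i ∈ S)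
    (hT : ∀ i : Fin 8, (s ||| t).testBit i.val = true ↔ i ∈ T) (hSc : S.card = 2)
    (hTc : T.card = 6) (hdep : ∃ c ∈ L8, msk c ||| (s ||| t) = s ||| t)
    (h : O8.underlying.eRk (mset s) + O8.underlying.eRk (mset t) =
      O8.underlying.eRk (mset s ∪ mset t) + O8.underlying.eRk (mset s ∩ mset t)) : False := by
  have hu : mset s ∪ mset t = mset (s ||| t) := by
    ext i; simp [mset, Nat.testBit_or]
  have hi : mset s ∩ mset t = mset (s &&& t) := by
    ext i; simp [mset, Nat.testBit_and]
  rw [hs, ht, hu, hi] at h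
  have h1 : O8.underlying.eRk (mset (s &&& t)) ≤ 2 := by
    refine (O8.underlying.eRk_le_encard _).trans ?_
    rw [encard_mset hS, hSc]; rfl
  have h2 : O8.underlying.eRk (mset (s ||| t)) < 6 := by
    have hd : O8.underlying.Dep (mset (s ||| t)) := by
      refine ⟨?_, by simp⟩
      intro hI
      rw [OrientedMatroid.underlying_indep] at hI
      obtain ⟨c, hc, hcs⟩ := hdep
      exact hI _ (mem_O8.2 ⟨c, hc, rfl⟩) ((supp_sub_iff hc _).2 hcs)
    have := Matroid.eRk_lt_encard_of_dep_of_finite (toFinite _) hd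
    rw [encard_mset hT, hTc] at this
    exact this
  generalize O8.underlying.eRk (mset (s &&& t)) = a at h h1
  generalize O8.underlying.eRk (mset (s ||| t)) = b at h h2
  have ha : a ≠ ⊤ := by rintro rfl; exact absurd h1 (by decide)
  have hb : b ≠ ⊤ := by rintro rfl; exact absurd h2 (by decide)
  lift a to ℕ using ha
  lift b to ℕ using hb
  norm_cast at h h1 h2
  omega

theorem r23 : O8.underlying.eRk (mset 23) = 4 :=
  eRk_four indep23 (S := {0, 1, 2, 4}) (by decide) (by decide)
theorem r43 : O8.underlying.eRk (mset 43) = 4 :=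
  eRk_four indep43 (S := {0, 1, 3, 5}) (by decide) (by decide)
theorem r195 : O8.underlying.eRk (mset 195) = 4 :=
  eRk_four indep195 (S := {0, 1, 6, 7}) (by decide) (by decide)

theorem modularCut_cutM' : IsModularCut O8.underlying cutM' := by
  refine ⟨?_, ?_, ?_⟩
  · rintro F (rfl | rfl | rfl | rfl)
    · exact univ_flat
    · exact flat23
    · exact flat43
    · exact flat195
  · rintro F (rfl | rfl | rfl | rfl) G hG hs
    · left; exact univ_subset_iff.1 hs
    · rcases up_of_check (s := 23) (by decide +kernel) hG hs with h | h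
      · right; left; exact h
      · left; exact h
    · rcases up_of_check (s := 43) (by decide +kernel) hG hs with h | h
      · right; right; left; exact h
      · left; exact h
    · rcases up_of_check (s := 195) (by decide +kernel) hG hs with h | h
      · right; right; right; exact h
      · left; exact h
  · intro F hF G hG h
    have hF' := hF
    have hG' := hG
    rcases hF with rfl | rfl | rfl | rfl
    · rwa [univ_inter]
    · rcases hG with rfl | rfl | rfl | rfl
      · rwa [inter_univ]
      · rwa [inter_self]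
      · exact (not_modular r23 r43 (S := {0, 1}) (T := {0, 1, 2, 3, 4, 5}) (by decide)
          (by decide) (by decide) (by decide) (by decide +kernel) h).elim
      · exact (not_modular r23 r195 (S := {0, 1}) (T := {0, 1, 2, 4, 6, 7}) (by decide)
          (by decide) (by decide) (by decide) (by decide +kernel) h).elim
    · rcases hG with rfl | rfl | rfl | rfl
      · rwa [inter_univ]
      · exact (not_modular r43 r23 (S := {0, 1}) (T := {0, 1, 2, 3, 4, 5}) (by decide)
          (by decide) (by decide) (by decide) (by decide +kernel) h).elim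
      · rwa [inter_self]
      · exact (not_modular r43 r195 (S := {0, 1}) (T := {0, 1, 3, 5, 6, 7}) (by decide)
          (by decide) (by decide) (by decide) (by decide +kernel) h).elim
    · rcases hG with rfl | rfl | rfl | rfl
      · rwa [inter_univ]
      · exact (not_modular r195 r23 (S := {0, 1}) (T := {0, 1, 2, 4, 6, 7}) (by decide)
          (by decide) (by decide) (by decide) (by decide +kernel) h).elim
      · exact (not_modular r195 r43 (S := {0, 1}) (T := {0, 1, 3, 5, 6, 7}) (by decide)
          (by decide) (by decide) (by decide) (by decide +kernel) h).elim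
      · rwa [inter_self]

theorem cutM'_sub : cutM' ⊆ cutM := by
  intro F hF
  refine ⟨modularCut_cutM'.1 F hF, ?_, ?_⟩
  · rcases hF with rfl | rfl | rfl | rfl
    · exact mem_univ _
    · show (23 : ℕ).testBit 0 = true; decide
    · show (43 : ℕ).testBit 0 = true; decide
    · show (195 : ℕ).testBit 0 = true; decide
  · rcases hF with rfl | rfl | rfl | rfl
    · exact mem_univ _
    · show (23 : ℕ).testBit 1 = true; decide
    · show (43 : ℕ).testBit 1 = true; decide
    · show (195 : ℕ).testBit 1 = true; decide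

/-! ### `O9` corresponds to `cutM` -/

theorem aux259 : ∀ i : Fin 8, (259 : ℕ).testBit i.val = true → i = 0 ∨ i = 1 := by decide

theorem aux19 : ∀ i : Fin 8, (23 : ℕ).testBit i.val = true → i ≠ 2 →
    (19 : ℕ).testBit i.val = true := by decide

theorem fact_line : ∃ c ∈ L9, msk c = 259 := by decide +kernel

theorem fact_cl : ∀ c ∈ L9, (msk c).testBit 8 = true → ∀ j < 2,
    (msk c).testBit j = true ∨ ∃ z ∈ L8, (msk z).testBit j = true ∧
      msk z ||| (msk c ||| 2 ^ j) = msk c ||| 2 ^ j := by decide +kernel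

theorem corresponds : O8.CorrespondsTo O9 cutM := by
  intro F
  have hn : (none : Option (Fin 8)) ∉ some '' F := by
    rintro ⟨i, _, h⟩; exact absurd h (by simp)
  constructor
  · rintro ⟨hF, h0, h1⟩
    refine ⟨hF, ?_⟩
    rw [OrientedMatroid.mem_closure_iff _ hn]
    obtain ⟨c, hc, hcm⟩ := fact_line
    refine ⟨_, mem_O9.2 ⟨c, hc, rfl⟩, ?_, ?_⟩
    · rw [sg_ne_zero_iff_msk (pos9_lt _), hcm]
      show (259 : ℕ).testBit 8 = true
      decide
    · rintro (_ | i) hi
      · exact Or.inl rfl
      · right
        refine ⟨i, ?_, rfl⟩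
        have h2 : sg c (pos9 (some i)) ≠ 0 := hi
        rw [sg_ne_zero_iff_msk (pos9_lt _), hcm] at h2
        have h3 : (259 : ℕ).testBit i.val = true := h2
        have h4 : i = 0 ∨ i = 1 := aux259 i h3
        rcases h4 with rfl | rfl
        · exact h0
        · exact h1
  · rintro ⟨hF, hcl⟩
    rw [OrientedMatroid.mem_closure_iff _ hn] at hcl
    obtain ⟨X, hX, hXn, hXs⟩ := hcl
    obtain ⟨c, hc, rfl⟩ := mem_O9.1 hX
    have h8 : (msk c).testBit 8 = true := (sg_ne_zero_iff_msk (by norm_num)).1 hXn
    have hin : ∀ i : Fin 8, (msk c).testBit i.val = true → i ∈ F := by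
      intro i hi
      have h9 : (some i : Option (Fin 8)) ∈ supp (fun a => sg c (pos9 a)) := by
        show sg c i.val ≠ 0
        exact (sg_ne_zero_iff_msk (by omega)).2 hi
      rcases hXs h9 with h10 | ⟨k, hk, h10⟩
      · exact absurd h10 (by simp)
      · rw [Option.some.injEq] at h10
        exact h10 ▸ hk
    have key : ∀ j : Fin 8, j.val < 2 → j ∈ F := by
      intro j hj
      rcases fact_cl c hc h8 j.val hj with h1 | ⟨z, hz, h1, h2⟩
      · exact hin j h1
      · by_contra hjF
        rw [OrientedMatroid.isFlat_iff] at hF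
        refine hF _ (mem_O8.2 ⟨z, hz, rfl⟩) j hjF ((sg_ne_zero_iff_msk (by omega)).2 h1) ?_
        refine ((supp_sub_iff hz _).2 h2).trans ?_
        rw [← insert_mset]
        apply insert_subset_insert
        intro i hi
        exact hin i hi
    exact ⟨hF, key 0 (by decide), key 1 (by decide)⟩

theorem fact_three : ∀ c ∈ L9, ∃ i < 9, ∃ j < 9, ∃ k < 9, i < j ∧ j < k ∧
    (msk c).testBit i = true ∧ (msk c).testBit j = true ∧ (msk c).testBit k = true := by
  decide +kernel

theorem simple9 : ∀ X ∈ O9.circuits, 3 ≤ (supp X).ncard := by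
  intro X hX
  obtain ⟨c, hc, rfl⟩ := mem_O9.1 hX
  obtain ⟨i, hi, j, hj, k, hk, hij, hjk, h1, h2, h3⟩ := fact_three c hc
  obtain ⟨a, rfl⟩ := pos9_surj i hi
  obtain ⟨b, rfl⟩ := pos9_surj j hj
  obtain ⟨d, rfl⟩ := pos9_surj k hk
  have hab : a ≠ b := by rintro rfl; omega
  have hbd : b ≠ d := by rintro rfl; omega
  have had : a ≠ d := by rintro rfl; omega
  have hsub : ({a, b, d} : Set (Option (Fin 8))) ⊆ supp (fun a => sg c (pos9 a)) := by
    rintro x (rfl | rfl | rfl)
    · exact (sg_ne_zero_iff_msk (pos9_lt _)).2 h1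
    · exact (sg_ne_zero_iff_msk (pos9_lt _)).2 h2
    · exact (sg_ne_zero_iff_msk (pos9_lt _)).2 h3
  have hcard : ({a, b, d} : Set (Option (Fin 8))).ncard = 3 := by
    rw [Set.ncard_eq_three]
    exact ⟨a, b, d, hab, had, hbd, rfl⟩
  rw [← hcard]
  exact ncard_le_ncard hsub (toFinite _)

/-! ### No extension corresponds to `cutM'` -/

theorem fact12 : ∀ c ∈ L8, msk c ||| 63 = 63 → sg c 2 = sg c 4 ∧ sg c 2 ≠ 0 := by decide +kernel
theorem fact13 : ∀ c ∈ L8, msk c ||| 215 = 215 → sg c 2 = - sg c 4 ∧ sg c 2 ≠ 0 := by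
  decide +kernel

/-- A signed circuit of the extension through the new point inside a hyperplane of the cut. -/
theorem exists_circ {O' : OrientedMatroid (Option (Fin 8))} (hcor : O8.CorrespondsTo O' cutM')
    {s : ℕ} (hs : mset s ∈ cutM') :
    ∃ X ∈ O'.circuits, X none = 1 ∧ supp X ⊆ insert none (some '' mset s) := by
  have hn : (none : Option (Fin 8)) ∉ some '' mset s := by
    rintro ⟨i, _, h⟩; exact absurd h (by simp)
  have h1 := ((hcor (mset s)).1 hs).2
  rw [OrientedMatroid.mem_closure_iff _ hn] at h1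
  obtain ⟨X, hX, hXn, hXs⟩ := h1
  rcases hx : X none with _ | _ | _
  · exact absurd hx hXn
  · refine ⟨-X, O'.neg_mem X hX, by simp [hx], ?_⟩
    have : supp (-X) = supp X := by ext f; simp [supp]
    rw [this]; exact hXs
  · exact ⟨X, hX, hx, hXs⟩

theorem set_ne {s t : ℕ} (i : Fin 8) (h1 : s.testBit i.val = true) (h2 : t.testBit i.val = false) :
    mset s ≠ mset t := by
  intro h
  have h3 : i ∈ mset t := h ▸ h1
  rw [mem_mset, h2] at h3
  simp at h3

theorem no_extension : ¬ ∃ O' : OrientedMatroid (Option (Fin 8)),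
    O8.IsExtension O' ∧ O8.CorrespondsTo O' cutM' := by
  rintro ⟨O', hext, hcor⟩
  have m23 : mset 23 ∈ cutM' := Or.inr (Or.inl rfl)
  have m43 : mset 43 ∈ cutM' := Or.inr (Or.inr (Or.inl rfl))
  have m195 : mset 195 ∈ cutM' := Or.inr (Or.inr (Or.inr rfl))
  obtain ⟨X, hX, hXn, hXs⟩ := exists_circ hcor m23
  obtain ⟨Y, hY, hYn, hYs⟩ := exists_circ hcor m43
  obtain ⟨W, hW, hWn, hWs⟩ := exists_circ hcor m195
  -- the circuit `X` contains the element `2`
  have hX2 : X (some 2) ≠ 0 := by
    intro h0
    have hn : (none : Option (Fin 8)) ∉ some '' mset 19 := by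
      rintro ⟨i, _, h⟩; exact absurd h (by simp)
    have h19 : mset 19 ∈ cutM' := by
      rw [hcor]
      refine ⟨flat19, ?_⟩
      rw [OrientedMatroid.mem_closure_iff _ hn]
      refine ⟨X, hX, by rw [hXn]; decide, ?_⟩
      intro o ho
      rcases hXs ho with h | ⟨i, hi, rfl⟩
      · exact Or.inl h
      · right
        refine ⟨i, ?_, rfl⟩
        have hi2 : i ≠ 2 := by
          rintro rfl; exact ho h0
        exact aux19 i hi hi2
    rcases h19 with h | h | h | h
    · have : (2 : Fin 8) ∈ mset 19 := h ▸ mem_univ _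
      revert this; rw [mem_mset]; decide
    · exact set_ne 2 (s := 23) (t := 19) (by decide) (by decide) h.symm
    · exact set_ne 3 (s := 43) (t := 19) (by decide) (by decide) h.symm
    · exact set_ne 6 (s := 195) (t := 19) (by decide) (by decide) h.symm
  -- elimination
  have key : ∀ V ∈ O'.circuits, V none = 1 → ∀ t : ℕ, supp V ⊆ insert none (some '' mset t) →
      t.testBit 2 = false → t.testBit 4 = false →
      ∃ c ∈ L8, msk c ||| (23 ||| t) = 23 ||| t ∧ (sg c 2 ≠ 0 → X (some 2) = sg c 2) ∧
        (sg c 4 ≠ 0 → X (some 4) = sg c 4) := by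
    intro V hV hVn t hVs ht2 ht4
    have hV2 : V (some 2) = 0 := by
      by_contra hne
      rcases hVs hne with h | ⟨i, hi, h⟩
      · exact absurd h (by simp)
      · rw [Option.some.injEq] at h
        subst h
        have : t.testBit 2 = true := hi
        rw [ht2] at this; simp at this
    have hV4 : V (some 4) = 0 := by
      by_contra hne
      rcases hVs hne with h | ⟨i, hi, h⟩
      · exact absurd h (by simp)
      · rw [Option.some.injEq] at h
        subst h
        have : t.testBit 4 = true := hi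
        rw [ht4] at this; simp at this
    have hne : X ≠ -(-V) := by
      rw [neg_neg]
      rintro rfl
      exact hX2 hV2
    obtain ⟨Z, hZ, hZn, hZf⟩ := O'.elimination X hX (-V) (O'.neg_mem V hV) hne none hXn
      (by simp [hVn])
    have hZ8 : (fun a => Z (some a)) ∈ O8.circuits := by
      rw [hext]
      have : (fun o : Option (Fin 8) => o.elim 0 (fun a => Z (some a))) = Z := by
        funext o
        rcases o with _ | a
        · exact hZn.symm
        · rfl
      rw [this]
      exact hZ
    obtain ⟨c, hc, hcZ⟩ := mem_O8.1 hZ8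
    have hZc : ∀ i : Fin 8, Z (some i) = sg c i.val := fun i => congrFun hcZ i
    refine ⟨c, hc, ?_, ?_, ?_⟩
    · rw [← supp_sub_iff hc]
      intro i hi
      have hi' : Z (some i) ≠ 0 := by rw [hZc]; exact hi
      rw [mem_mset, Nat.testBit_or, Bool.or_eq_true]
      have hXV : X (some i) ≠ 0 ∨ V (some i) ≠ 0 := by
        rcases hz : Z (some i) with _ | _ | _
        · exact absurd hz hi'
        · rcases (hZf (some i)).2 hz with h | h
          · left; rw [h]; decide
          · right
            intro h0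
            rw [Pi.neg_apply, h0] at h
            exact absurd h (by decide)
        · rcases (hZf (some i)).1 hz with h | h
          · left; rw [h]; decide
          · right
            intro h0
            rw [Pi.neg_apply, h0] at h
            exact absurd h (by decide)
      rcases hXV with h | h
      · left
        rcases hXs h with h' | ⟨k, hk, h'⟩
        · exact absurd h' (by simp)
        · rw [Option.some.injEq] at h'
          rw [← h']; exact hk
      · right
        rcases hVs h with h' | ⟨k, hk, h'⟩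
        · exact absurd h' (by simp)
        · rw [Option.some.injEq] at h'
          rw [← h']; exact hk
    · intro h2
      have h2' : Z (some 2) ≠ 0 := by rw [hZc]; exact h2
      rw [← show Z (some 2) = sg c 2 from hZc 2]
      rcases hz : Z (some 2) with _ | _ | _
      · exact absurd hz h2'
      · rcases (hZf (some 2)).2 hz with h | h
        · exact h
        · rw [Pi.neg_apply, hV2] at h
          exact absurd h (by decide)
      · rcases (hZf (some 2)).1 hz with h | h
        · exact h
        · rw [Pi.neg_apply, hV2] at h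
          exact absurd h (by decide)
    · intro h2
      have h2' : Z (some 4) ≠ 0 := by rw [hZc]; exact h2
      rw [← show Z (some 4) = sg c 4 from hZc 4]
      rcases hz : Z (some 4) with _ | _ | _
      · exact absurd hz h2'
      · rcases (hZf (some 4)).2 hz with h | h
        · exact h
        · rw [Pi.neg_apply, hV4] at h
          exact absurd h (by decide)
      · rcases (hZf (some 4)).1 hz with h | h
        · exact h
        · rw [Pi.neg_apply, hV4] at h
          exact absurd h (by decide)
  obtain ⟨c, hc, c1, c2, c3⟩ := key Y hY hYn 43 hYs (by decide) (by decide)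
  obtain ⟨d, hd, d1, d2, d3⟩ := key W hW hWn 195 hWs (by decide) (by decide)
  obtain ⟨e1, e2⟩ := fact12 c hc c1
  obtain ⟨f1, f2⟩ := fact13 d hd d1
  have g1 := c2 e2
  have g2 := c3 (e1 ▸ e2)
  have g3 := d2 f2
  have g4 := d3 (by
    intro h0
    rw [h0] at f1
    exact f2 (by rw [f1]; rfl))
  have h1 : X (some 2) = X (some 4) := by rw [g1, g2, e1]
  have h2 : X (some 2) = - X (some 4) := by rw [g3, g4, f1]
  rw [← h1] at h2
  revert h2 hX2
  generalize X (some 2) = x
  revert x
  decide

/-- **Negative answer to Q1.**  There are an oriented matroid `O`, modular cuts `𝓜' ⊆ 𝓜` of its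
underlying matroid, an oriented single-element extension of `O` without loops and parallel
elements which corresponds to `𝓜`, and no oriented single-element extension of `O` corresponds
to `𝓜'`. -/
theorem result : ∃ (O : OrientedMatroid (Fin 8)) (𝓜 𝓜' : Set (Set (Fin 8))),
    IsModularCut O.underlying 𝓜 ∧ IsModularCut O.underlying 𝓜' ∧ 𝓜' ⊆ 𝓜 ∧
    (∃ O' : OrientedMatroid (Option (Fin 8)), O.IsExtension O' ∧ O.CorrespondsTo O' 𝓜 ∧
      ∀ X ∈ O'.circuits, 3 ≤ (supp X).ncard) ∧
    ¬ ∃ O' : OrientedMatroid (Option (Fin 8)), O.IsExtension O' ∧ O.CorrespondsTo O' 𝓜' :=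
  ⟨O8, cutM, cutM', modularCut_cutM, modularCut_cutM', cutM'_sub,
    ⟨O9, isExtension, corresponds, simple9⟩, no_extension⟩

end Pool.Agent.Results.MP_6e3918_co.SubModularCut
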